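import Pool.Agent.H73.GWQ.Stmts

/-!
Row INQ of the board gwq (MP_213ba5_lc): the invariant of the state.
-/

set_option autoImplicit false

open Classical

namespace GWQ

variable {ι G V : Type*} [Fintype ι] [Group G] (C : QCode ι G V)

theorem ini_full (w : ℕ → G) (lb : Prop) (x : ι) (F : List (ι × List ι)) (b : List ι)
    (h : Ok C w F b) :
    (GWT.ini lb x F).2.1 ++ GWT.full (GWT.ini lb x F).1 b = x :: GWT.full F b ∧
    Ok C w (GWT.ini lb x F).1 b := by
  cases F with
  | nil => exact ⟨rfl, trivial⟩
  | cons f F =>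
    by_cases hl : lb
    · have e : GWT.ini lb x (f :: F) = (F, x :: (f.2 ++ [f.1]), some f.1) := by
        simp [GWT.ini, hl]
      rw [e]
      refine ⟨?_, h.2.2⟩
      simp [GWT.full]
    · have e : GWT.ini lb x (f :: F) = (f :: F, [x], none) := by
        simp [GWT.ini, hl]
      rw [e]
      exact ⟨rfl, h⟩

theorem INQ (h1 : POQStmt C) : INQStmt C := by
  intro w l
  induction l with
  | nil => exact ⟨rfl, trivial⟩
  | cons x l ih =>
    obtain ⟨ih1, ih2⟩ := ih
    by_cases hG : Good C w x l
    · have e2 : St C w (x :: l) = ((x, []) :: (St C w l).1, (St C w l).2) := by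
        rw [St, if_pos hG]
      rw [e2]
      refine ⟨?_, ?_, ?_, ih2⟩
      · change [] ++ x :: GWT.full (St C w l).1 (St C w l).2 = x :: l
        rw [ih1, List.nil_append]
      · change ¬ LB C (W C w (GWT.full (St C w l).1 (St C w l).2)) x
        rw [ih1]
        exact hG.1
      · change ¬ RB C x (tl C w [] (GWT.full (St C w l).1 (St C w l).2).length)
        rw [ih1]
        have e3 : tl C w [] l.length = w (l.length + 1) := by
          simp [tl, vv]
        rw [e3]
        exact hG.2
    · have e2 : St C w (x :: l) =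
          (pop C w (GWT.ini (LB C (W C w l) x) x (St C w l).1).1
            (GWT.ini (LB C (W C w l) x) x (St C w l).1).2.1 (St C w l).2).2 := by
        rw [St, if_neg hG]
      rw [e2]
      obtain ⟨i1, i2⟩ := ini_full C w (LB C (W C w l) x) x (St C w l).1 (St C w l).2 ih2
      obtain ⟨p1, -, p3⟩ := h1 w (GWT.ini (LB C (W C w l) x) x (St C w l).1).1
        (GWT.ini (LB C (W C w l) x) x (St C w l).1).2.1 (St C w l).2 i2
      exact ⟨by rw [p1, i1, ih1], p3⟩

end GWQ
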