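import Pool.Agent.H73.GWQ.Stmts

/-!
Row MVQ of the board gwq (MP_213ba5_lc): messages are valid, weights (after helper17's MVA).
-/

set_option autoImplicit false

open Classical

namespace GWQ

variable {ι G V : Type*} [Fintype ι] [Group G] (C : QCode ι G V)

theorem ini_specQ (w : ℕ → G) (lb : Prop) (x : ι) (F : List (ι × List ι)) (b : List ι)
    (h : Ok C w F b) :
    Ok C w (GWT.ini lb x F).1 b ∧
    (GWT.ini lb x F).1.length + (GWT.ini lb x F).2.2.toList.length = F.length ∧
    (¬ lb → (GWT.ini lb x F).2.2 = none) := by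
  cases F with
  | nil => exact ⟨trivial, rfl, fun _ => rfl⟩
  | cons f F =>
    by_cases hl : lb
    · have e : GWT.ini lb x (f :: F) = (F, x :: (f.2 ++ [f.1]), some f.1) := by
        simp [GWT.ini, hl]
      rw [e]
      exact ⟨h.2.2, rfl, fun hn => absurd hl hn⟩
    · have e : GWT.ini lb x (f :: F) = (f :: F, [x], none) := by
        simp [GWT.ini, hl]
      rw [e]
      exact ⟨h, rfl, fun _ => rfl⟩

theorem MVQ (h1 : POQStmt C) (h2 : INQStmt C) : MVQStmt C := by
  intro w x l
  by_cases hG : Good C w x l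
  · have e1 : msg C w x l = Msg.good := by
      unfold msg; rw [if_pos hG]
    have e2 : St C w (x :: l) = ((x, []) :: (St C w l).1, (St C w l).2) := by
      rw [St, if_pos hG]
    rw [e1, e2]
    refine ⟨trivial, fun X hX => ?_⟩
    rw [List.length_cons, pow_succ]
    rfl
  · obtain ⟨i1, i2, i3⟩ := ini_specQ C w (LB C (W C w l) x) x (St C w l).1
      (St C w l).2 (h2 w l).2
    have e1 : msg C w x l = Msg.bad (decide (LB C (W C w l) x))
        (GWT.ini (LB C (W C w l) x) x (St C w l).1).2.2
        (pop C w (GWT.ini (LB C (W C w l) x) x (St C w l).1).1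
          (GWT.ini (LB C (W C w l) x) x (St C w l).1).2.1 (St C w l).2).1 := by
      unfold msg; rw [if_neg hG]
    have e2 : St C w (x :: l) =
        (pop C w (GWT.ini (LB C (W C w l) x) x (St C w l).1).1
          (GWT.ini (LB C (W C w l) x) x (St C w l).1).2.1 (St C w l).2).2 := by
      rw [St, if_neg hG]
    obtain ⟨-, hlen, -⟩ := h1 w
      (GWT.ini (LB C (W C w l) x) x (St C w l).1).1
      (GWT.ini (LB C (W C w l) x) x (St C w l).1).2.1 (St C w l).2 i1
    rw [e1, e2]
    refine ⟨fun hb => i3 (of_decide_eq_false hb), fun X hX => ?_⟩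
    have hX' : X ≠ 0 := hX.ne'
    have hs : (St C w l).1.length =
        (pop C w (GWT.ini (LB C (W C w l) x) x (St C w l).1).1
          (GWT.ini (LB C (W C w l) x) x (St C w l).1).2.1 (St C w l).2).2.1.length +
        ((GWT.ini (LB C (W C w l) x) x (St C w l).1).2.2.toList.length +
        (pop C w (GWT.ini (LB C (W C w l) x) x (St C w l).1).1
          (GWT.ini (LB C (W C w l) x) x (St C w l).1).2.1 (St C w l).2).1) := by
      omega
    rw [hs, pow_add, omg, mul_assoc, ← mul_pow, mul_inv_cancel₀ hX', one_pow, mul_one]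

end GWQ
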