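import Pool.Agent.H73.GWQ.Stmts2

/-!
Row N7Q of the board gwq (MP_213ba5_lc): bounded overlap of the axis of a WPD element of infinite index with a
translate.
-/

set_option autoImplicit false

open Classical

namespace GWQ

variable {G V : Type*} [Group G] (D : QM G V)

theorem n7_mul (x y : G) : D.nm (x * y) ≤ D.nm x + D.nm y := by
  have h1 := D.tri 1 x (x * y)
  have h2 := D.inv x 1 y
  rw [mul_one] at h2
  unfold QM.nm
  omega

theorem n7_mul' (x y : G) : D.nm y ≤ D.nm x + D.nm (x * y) := by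
  have h1 := D.tri x 1 (x * y)
  have h2 := D.inv x 1 y
  have h3 := D.comm x 1
  rw [mul_one] at h2
  unfold QM.nm
  omega

theorem n7_inv (g : G) : D.nm g⁻¹ = D.nm g := by
  have h2 := D.inv g 1 g⁻¹
  have h3 := D.comm g 1
  rw [mul_one, mul_inv_cancel] at h2
  unfold QM.nm
  omega

theorem n7_dpow (g : G) {m n : ℕ} (h : m ≤ n) : D.d (g ^ m) (g ^ n) = D.nm (g ^ (n - m)) := by
  have h2 := D.inv (g ^ m) 1 (g ^ (n - m))
  rw [mul_one, ← pow_add, Nat.add_sub_cancel' h] at h2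
  exact h2

theorem n7_mono (a : G) (ha : ∀ n : ℕ, D.nm (a ^ n) + 1 ≤ D.nm (a ^ (n + 1))) :
    Monotone fun n : ℕ => D.nm (a ^ n) :=
  monotone_nat_of_le_succ fun n => by have := ha n; omega

/-- The core: two regular axes which fellow travel for a long time are close at two pairs of points which
are `L` steps apart. -/
theorem n7_core (h4 : TRNStmt D) (h5 : NEBStmt D) (a b x : G) (B L : ℕ)
    (ha1 : ∀ m n : ℕ, D.nm (a ^ m) + D.nm (a ^ n) ≤ D.nm (a ^ (m + n)) + B)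
    (ha2 : ∀ n : ℕ, D.nm (a ^ n) + 1 ≤ D.nm (a ^ (n + 1)))
    (ha3 : ∀ n : ℕ, n ≤ D.nm (a ^ n)) (hab : ∀ n : ℕ, D.nm (b ^ n) = D.nm (a ^ n)) (P Q : ℕ)
    (hK : D.d (a ^ P) (x * b ^ Q) + 2 * (2 * D.nm x + (2 * D.nm x + B + 8 * D.δ + 1) + D.nm a + D.nm (a ^ L) +
      D.nm (a ^ (D.nm x + B + 8 * D.δ + 1))) < D.nm (a ^ P) + D.nm (x * b ^ Q)) :
    ∃ i j : ℕ, D.d (a ^ i) (x * b ^ j) ≤ 3 * B + 24 * D.δ + D.nm a ∧
      D.d (a ^ (i + L)) (x * b ^ (j + L)) ≤ 3 * B + 24 * D.δ + D.nm a := by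
  obtain ⟨X, hX⟩ : ∃ X, D.nm x = X := ⟨_, rfl⟩
  obtain ⟨A, hA⟩ : ∃ A, D.nm a = A := ⟨_, rfl⟩
  obtain ⟨δ, hδ⟩ : ∃ δ, D.δ = δ := ⟨_, rfl⟩
  obtain ⟨c, hc⟩ : ∃ c, X + B + 8 * δ + 1 = c := ⟨_, rfl⟩
  obtain ⟨θ, hθ⟩ : ∃ θ, 2 * X + B + 8 * δ + 1 = θ := ⟨_, rfl⟩
  obtain ⟨AL, hAL⟩ : ∃ AL, D.nm (a ^ L) = AL := ⟨_, rfl⟩
  obtain ⟨Ac, hAc⟩ : ∃ Ac, D.nm (a ^ c) = Ac := ⟨_, rfl⟩
  rw [hX, hδ, hA, hAL, hθ, hc, hAc] at hK
  rw [hδ, hA]
  have hb : D.nm b = A := by have := hab 1; rwa [pow_one, pow_one, hA] at this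
  have hmono := n7_mono D a ha2
  have hadd : ∀ m n : ℕ, D.nm (a ^ (m + n)) ≤ D.nm (a ^ m) + D.nm (a ^ n) := fun m n => by
    rw [pow_add]; exact n7_mul D _ _
  have hvle : ∀ j, D.nm (x * b ^ j) ≤ X + D.nm (a ^ j) := fun j => by
    rw [← hX, ← hab]; exact n7_mul D _ _
  have hvge : ∀ j, D.nm (a ^ j) ≤ X + D.nm (x * b ^ j) := fun j => by
    rw [← hX, ← hab]; exact n7_mul' D _ _
  have hvadd : ∀ i j, D.nm (x * b ^ (i + j)) ≤ D.nm (x * b ^ i) + D.nm (a ^ j) := fun i j => by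
    rw [pow_add, ← mul_assoc, ← hab j]; exact n7_mul D _ _
  -- j₁
  have hex : ∃ j, θ ≤ D.nm (x * b ^ j) := by
    refine ⟨θ + X, ?_⟩
    have h1 := hvge (θ + X)
    have h2 := ha3 (θ + X)
    omega
  obtain ⟨j₁, hj1, hj2⟩ : ∃ j₁, θ ≤ D.nm (x * b ^ j₁) ∧ D.nm (x * b ^ j₁) ≤ θ + A := by
    refine ⟨Nat.find hex, Nat.find_spec hex, ?_⟩
    have hpos : Nat.find hex ≠ 0 := by
      intro h0
      have := Nat.find_spec hex
      rw [h0, pow_zero, mul_one, hX] at this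
      omega
    obtain ⟨k, hk⟩ := Nat.exists_eq_succ_of_ne_zero hpos
    have h1 : ¬ θ ≤ D.nm (x * b ^ k) := Nat.find_min hex (by omega)
    have h2 := hvadd k 1
    rw [pow_one, hA] at h2
    rw [hk]
    have h3 : k.succ = k + 1 := rfl
    rw [h3]
    omega
  -- i₁
  have hex2 : ∃ i, D.nm (x * b ^ j₁) < D.nm (a ^ i) := by
    refine ⟨D.nm (x * b ^ j₁) + 1, ?_⟩
    have h2 := ha3 (D.nm (x * b ^ j₁) + 1)
    omega
  have hn0 : D.nm (a ^ 0) = 0 := by rw [pow_zero]; exact D.self 1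
  obtain ⟨i₁, hi1, hi2⟩ : ∃ i₁, D.nm (a ^ i₁) ≤ D.nm (x * b ^ j₁) ∧ D.nm (x * b ^ j₁) ≤ D.nm (a ^ i₁) + A := by
    have hpos : Nat.find hex2 ≠ 0 := by
      intro h0
      have := Nat.find_spec hex2
      rw [h0, hn0] at this
      omega
    obtain ⟨k, hk⟩ := Nat.exists_eq_succ_of_ne_zero hpos
    have h1 : ¬ D.nm (x * b ^ j₁) < D.nm (a ^ k) := Nat.find_min hex2 (by omega)
    have h2 := Nat.find_spec hex2
    rw [hk] at h2
    have h3 := hadd k 1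
    rw [pow_one, hA] at h3
    have h4 : k.succ = k + 1 := rfl
    rw [h4] at h2
    exact ⟨k, by omega, by omega⟩
  -- lengths of the two segments
  have htri1 : D.nm (a ^ P) ≤ D.nm (x * b ^ Q) + D.d (a ^ P) (x * b ^ Q) := by
    have h1 := D.tri 1 (x * b ^ Q) (a ^ P)
    have h2 := D.comm (x * b ^ Q) (a ^ P)
    unfold QM.nm
    omega
  have htri2 : D.nm (x * b ^ Q) ≤ D.nm (a ^ P) + D.d (a ^ P) (x * b ^ Q) := by
    have h1 := D.tri 1 (a ^ P) (x * b ^ Q)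
    unfold QM.nm
    omega
  have hi3 := hadd i₁ L
  rw [hAL] at hi3
  have hP : i₁ + L ≤ P := by
    by_contra hcon
    have h1 : D.nm (a ^ P) ≤ D.nm (a ^ (i₁ + L)) := hmono (by omega)
    omega
  have hQ : j₁ + L + c ≤ Q := by
    by_contra hcon
    have h1 : D.nm (a ^ Q) ≤ D.nm (a ^ (j₁ + L + c)) := hmono (by omega)
    have h2 := hadd (j₁ + L) c
    have h3 := hadd j₁ L
    have h4 := hvge j₁
    have h5 := hvle Q
    omega
  -- the points near the segments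
  have hu : ∀ i, i ≤ P → D.nm (a ^ i) + D.d (a ^ i) (a ^ P) ≤ D.nm (a ^ P) + (B + 8 * D.δ) := fun i hi => by
    rw [n7_dpow D a hi]
    have h1 := ha1 i (P - i)
    rw [Nat.add_sub_cancel' hi] at h1
    omega
  have hcn : X + B + 8 * δ < D.nm (a ^ c) := by have := ha3 c; omega
  have hv : ∀ j, X + B + 8 * δ < D.nm (a ^ j) → j + c ≤ Q →
      D.nm (x * b ^ j) + D.d (x * b ^ j) (x * b ^ Q) ≤ D.nm (x * b ^ Q) + (B + 8 * D.δ) := fun j hj hjQ => by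
    have hd : D.d (b ^ j) (b ^ Q) = D.nm (a ^ (Q - j)) := by rw [n7_dpow D b (by omega), hab]
    have h1 := ha1 j (Q - j)
    rw [Nat.add_sub_cancel' (by omega)] at h1
    have h2 : D.nm (a ^ c) ≤ D.nm (a ^ (Q - j)) := hmono (by omega)
    have h3 := h4 x (x * b ^ Q) (b ^ j) (b ^ Q) X B hX.le (by rw [D.self]; omega)
      (by rw [hd, hab, hab]; exact h1) (by rw [hab, hδ]; exact hj) (by rw [hd, hδ]; omega)
    omega
  have hj3 : X + B + 8 * δ < D.nm (a ^ j₁) := by have := hvle j₁; omega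
  have hj4 : X + B + 8 * δ < D.nm (a ^ (j₁ + L)) := lt_of_lt_of_le hj3 (hmono (by omega))
  refine ⟨i₁, j₁, ?_, ?_⟩
  · have := h5 (a ^ P) (x * b ^ Q) (a ^ i₁) (x * b ^ j₁) (B + 8 * D.δ) A (hu i₁ (by omega)) (hv j₁ hj3 (by omega))
      (by omega) (by omega) (by omega)
    omega
  · have e1 := hvadd j₁ L
    rw [hAL] at e1
    have e2 := ha1 i₁ L
    rw [hAL] at e2
    have e3 := hv j₁ hj3 (by omega)
    have e4 : D.d (x * b ^ j₁) (x * b ^ Q) = D.nm (a ^ (Q - j₁)) := by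
      rw [D.inv, n7_dpow D b (by omega), hab]
    have e5 := ha1 L (Q - j₁ - L)
    have e6 : L + (Q - j₁ - L) = Q - j₁ := by omega
    rw [e6, hAL] at e5
    have e7 := hvadd (j₁ + L) (Q - j₁ - L)
    have e8 : j₁ + L + (Q - j₁ - L) = Q := by omega
    rw [e8] at e7
    have := h5 (a ^ P) (x * b ^ Q) (a ^ (i₁ + L)) (x * b ^ (j₁ + L)) (B + 8 * D.δ) (A + 2 * B + 8 * D.δ)
      (hu (i₁ + L) hP) (hv (j₁ + L) hj4 (by omega))
      (by omega) (by omega) (by omega)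
    omega

/-- powers of a regular element or its inverse -/
theorem n7_sign (h1 : N1QStmt D) (g : G) (hg : Reg D g) (a : G) (ha : a = g ∨ a = g⁻¹) :
    (∀ m n : ℕ, D.nm (a ^ m) + D.nm (a ^ n) ≤ D.nm (a ^ (m + n)) + BB D g) ∧
    (∀ n : ℕ, D.nm (a ^ n) + 1 ≤ D.nm (a ^ (n + 1))) ∧ (∀ n : ℕ, n ≤ D.nm (a ^ n)) ∧
    ∀ n : ℕ, D.nm (a ^ n) = D.nm (g ^ n) := by
  have key : ∀ n : ℕ, D.nm (a ^ n) = D.nm (g ^ n) := by
    intro n
    rcases ha with rfl | rfl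
    · rfl
    · rw [inv_pow, n7_inv]
  obtain ⟨e1, e2, e3⟩ := h1 g hg
  refine ⟨fun m n => ?_, fun n => ?_, fun n => ?_, key⟩
  · rw [key, key, key]; exact e1 m n
  · rw [key, key]; exact e2 n
  · rw [key]; exact e3 n

theorem N7Q (h1 : N1QStmt D) (h2 : N5QStmt D) (h3 : N6QStmt D) (h4 : TRNStmt D) (h5 : NEBStmt D) :
    N7QStmt D := by
  intro g hg hw hidx
  obtain ⟨L, n, hn, H⟩ := h2 g hg hw (3 * BB D g + 24 * D.δ + D.nm g)
  have hx : ∃ x : G, ¬ (x * g ^ n = g ^ n * x ∨ x * g ^ n = g ^ (-(n : ℤ)) * x) := by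
    by_contra hcon
    push Not at hcon
    exact h3 g hg hw n hn hcon hidx
  obtain ⟨x, hx⟩ := hx
  refine ⟨x, 2 * (2 * D.nm x + (2 * D.nm x + BB D g + 8 * D.δ + 1) + D.nm g + D.nm (g ^ L) +
      D.nm (g ^ (D.nm x + BB D g + 8 * D.δ + 1))), fun p q => ?_⟩
  by_contra hcon
  push Not at hcon
  obtain ⟨s, hs, P, hP⟩ : ∃ s : ℤ, (s = 1 ∨ s = -1) ∧ ∃ P : ℕ, p = s * P := by
    rcases Int.natAbs_eq p with h | h
    · exact ⟨1, Or.inl rfl, p.natAbs, by omega⟩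
    · exact ⟨-1, Or.inr rfl, p.natAbs, by omega⟩
  obtain ⟨t, ht, Q, hQ⟩ : ∃ t : ℤ, (t = 1 ∨ t = -1) ∧ ∃ Q : ℕ, q = t * Q := by
    rcases Int.natAbs_eq q with h | h
    · exact ⟨1, Or.inl rfl, q.natAbs, by omega⟩
    · exact ⟨-1, Or.inr rfl, q.natAbs, by omega⟩
  have hpow : ∀ (e : ℤ) (m : ℕ), g ^ (e * m) = (g ^ e) ^ m := fun e m => by
    rw [zpow_mul, zpow_natCast]
  have hsg : g ^ s = g ∨ g ^ s = g⁻¹ := by
    rcases hs with rfl | rfl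
    · exact Or.inl (zpow_one g)
    · exact Or.inr (zpow_neg_one g)
  have htg : g ^ t = g ∨ g ^ t = g⁻¹ := by
    rcases ht with rfl | rfl
    · exact Or.inl (zpow_one g)
    · exact Or.inr (zpow_neg_one g)
  obtain ⟨a1, a2, a3, a4⟩ := n7_sign D h1 g hg (g ^ s) hsg
  obtain ⟨-, -, -, b4⟩ := n7_sign D h1 g hg (g ^ t) htg
  have ha : D.nm (g ^ s) = D.nm g := by have := a4 1; rwa [pow_one, pow_one] at this
  rw [hP, hQ, hpow s, hpow t] at hcon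
  rw [← a4 L, ← a4 (D.nm x + BB D g + 8 * D.δ + 1)] at hcon
  have hcon' : D.d ((g ^ s) ^ P) (x * (g ^ t) ^ Q) + 2 * (2 * D.nm x + (2 * D.nm x + BB D g + 8 * D.δ + 1) +
      D.nm (g ^ s) + D.nm ((g ^ s) ^ L) +
      D.nm ((g ^ s) ^ (D.nm x + BB D g + 8 * D.δ + 1))) < D.nm ((g ^ s) ^ P) + D.nm (x * (g ^ t) ^ Q) := by
    rw [ha]; exact hcon
  obtain ⟨i, j, hij1, hij2⟩ := n7_core D h4 h5 (g ^ s) (g ^ t) x (BB D g) L a1 a2 a3
    (fun n => (b4 n).trans (a4 n).symm) P Q hcon'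
  rw [ha, ← hpow, ← hpow] at hij1 hij2
  push_cast at hij2
  rcases ht with rfl | rfl
  · refine hx (H x (s * i) j s hs ?_ ?_)
    · rw [one_mul] at hij1; exact hij1
    · rw [one_mul, mul_add] at hij2; exact hij2
  · refine hx (H x (s * (i + L)) (-(j + L)) (-s) (by omega) ?_ ?_)
    · have e1 : (-1 : ℤ) * (j + L) = -(j + L) := by ring
      rw [e1] at hij2; exact hij2
    · have e1 : s * ((i : ℤ) + L) + -s * L = s * i := by ring
      have e2 : -((j : ℤ) + L) + L = -1 * j := by ring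
      rw [e1, e2]; exact hij1

end GWQ
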