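import Pool.Agent.H73.GWQ.Stmts2

/-!
Row NEB of the board gwq (MP_213ba5_lc): points near two segments with a long common part.
-/

set_option autoImplicit false

open Classical

namespace GWQ

variable {G V : Type*} [Group G] (D : QM G V)

theorem NEB (h1 : H4QStmt D) (h2 : NEAStmt D) : NEBStmt D := by
  intro P Q u v a e hu hv hPQ huv hvu
  have h := h1 1 P u Q
  have c1 := D.comm P u
  have key : D.nm u + D.d u Q ≤ D.nm Q + (a + 4 * D.δ) := by
    unfold QM.nm at *
    rcases le_max_iff.mp (show D.d 1 P + D.d u Q - 4 * D.δ ≤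
        max (D.d 1 u + D.d P Q) (D.d 1 Q + D.d P u) by omega) with h' | h'
    · omega
    · omega
  have := h2 Q u v (a + 4 * D.δ) e key (by omega) huv hvu
  omega

end GWQ
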